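import Mathlib
import Pool.Agent.Helper69.BQ.Defs

/-!
# Project BQ, pieces B5, B7, B8: algebra of the biquadratic field
-/

namespace Pool.Agent.Helper50.BQ

open Module NumberField Pool.Agent.Helper25.Biq Pool.Agent.Helper69.BQ

section field

variable {K : Type} [Field K] [NumberField K] [IsGalois ℚ K] {g12 g13 g23 : ℤ}

omit [IsGalois ℚ K] in
lemma s1_ne (D : Dat K g12 g13 g23) (hA : Arith g12 g13 g23) : D.s1 ≠ 0 := by
  intro h
  have h1 := D.q1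
  rw [h] at h1
  have h2 : (((g12 * g13 : ℤ)) : K) = 0 := by rw [← h1]; ring
  have h3 : g12 * g13 = 0 := by exact_mod_cast h2
  have := mul_pos hA.pos12 hA.pos13
  omega

/-- B5. The elements fixed by `σ`. -/
lemma fix_form (D : Dat K g12 g13 g23) (hA : Arith g12 g13 g23) {β : K} (h : D.σ β = β) :
    ∃ x y : ℚ, β = algebraMap ℚ K x + algebraMap ℚ K y * D.s1 := by
  have hs := s1_ne D hA
  have hst : D.σ (D.τ β) = D.τ β := by rw [D.v4.hst, ← D.v4.hts, h]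
  have htt : D.τ (D.τ β) = β := D.v4.swap.hss β
  obtain ⟨x, hx⟩ := exists_rat D.v4 (x := (β + D.τ β) / 2)
    (by rw [map_div₀, map_add, h, hst, map_ofNat])
    (by rw [map_div₀, map_add, htt, map_ofNat, add_comm])
  obtain ⟨y, hy⟩ := exists_rat D.v4 (x := (β - D.τ β) / (2 * D.s1))
    (by rw [map_div₀, map_sub, h, hst, map_mul, D.σ1, map_ofNat])
    (by
      rw [map_div₀, map_sub, htt, map_mul, D.τ1, map_ofNat]
      rw [mul_neg, div_neg, ← neg_div, neg_sub])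
  refine ⟨x, y, ?_⟩
  rw [hx, hy]
  field_simp
  ring

/-- B7. Square roots of rational numbers. -/
lemma rat_sqrt (D : Dat K g12 g13 g23) (hA : Arith g12 g13 g23) {r : ℚ} {θ : K}
    (h : θ ^ 2 = algebraMap ℚ K r) : ∃ q : ℚ, θ = algebraMap ℚ K q ∨
      θ = algebraMap ℚ K q * D.s1 ∨ θ = algebraMap ℚ K q * D.s2 ∨
      θ = algebraMap ℚ K q * D.s3 := by
  have h1 : D.s1 ≠ 0 := s1_ne D hA
  have h2 : D.s2 ≠ 0 := s1_ne D.rot hA.rot
  have h3 : D.s3 ≠ 0 := s1_ne D.rot.rot hA.rot.rot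
  have key : ∀ g : K ≃ₐ[ℚ] K, g θ = θ ∨ g θ = -θ := by
    intro g
    have h4 : (g θ) ^ 2 = θ ^ 2 := by rw [← map_pow, h, AlgEquiv.commutes]
    exact sq_eq_sq_iff_eq_or_eq_neg.1 h4
  have fin : ∀ (s : K) (m : ℤ), s ≠ 0 → s ^ 2 = ((m : ℤ) : K) → D.σ (θ * s) = θ * s →
      D.τ (θ * s) = θ * s → ∃ q : ℚ, θ = algebraMap ℚ K q * s := by
    intro s m hs hm ha hb
    obtain ⟨q, hq⟩ := exists_rat D.v4 ha hb
    refine ⟨q / m, ?_⟩
    have hm0 : ((m : ℤ) : K) ≠ 0 := by rw [← hm]; exact pow_ne_zero 2 hs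
    rw [map_div₀, hq, map_intCast, ← hm]
    field_simp
  rcases key D.σ with ha | ha <;> rcases key D.τ with hb | hb
  · obtain ⟨q, hq⟩ := exists_rat D.v4 ha hb
    exact ⟨q, Or.inl hq.symm⟩
  · obtain ⟨q, hq⟩ := fin D.s1 _ h1 D.q1 (by rw [map_mul, ha, D.σ1])
      (by rw [map_mul, hb, D.τ1]; ring)
    exact ⟨q, Or.inr (Or.inl hq)⟩
  · obtain ⟨q, hq⟩ := fin D.s2 _ h2 D.q2 (by rw [map_mul, ha, D.σ2]; ring)
      (by rw [map_mul, hb, D.τ2])
    exact ⟨q, Or.inr (Or.inr (Or.inl hq))⟩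
  · obtain ⟨q, hq⟩ := fin D.s3 _ h3 D.q3 (by rw [map_mul, ha, D.σ3]; ring)
      (by rw [map_mul, hb, D.τ3]; ring)
    exact ⟨q, Or.inr (Or.inr (Or.inr hq))⟩

/-- B8. Hilbert 90: an element of the fixed field of `σ` whose norm is the square of a rational
number is the product of a rational number and a square. -/
lemma h90 (D : Dat K g12 g13 g23) (hA : Arith g12 g13 g23) {β : K} (hβ : β ≠ 0)
    (h : D.σ β = β) {n : ℚ} (hn : n ≠ 0) (hN : β * D.τ β = algebraMap ℚ K (n ^ 2)) :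
    ∃ (c : ℚ) (γ : K), c ≠ 0 ∧ γ ≠ 0 ∧ D.σ γ = γ ∧ β = algebraMap ℚ K c * γ ^ 2 := by
  by_cases hb : β = - algebraMap ℚ K n
  · exact ⟨-n, 1, neg_ne_zero.2 hn, one_ne_zero, map_one _, by rw [hb, map_neg]; ring⟩
  have hst : D.σ (D.τ β) = D.τ β := by rw [D.v4.hst, ← D.v4.hts, h]
  have htt : D.τ (D.τ β) = β := D.v4.swap.hss β
  obtain ⟨t, ht⟩ := exists_rat D.v4 (x := β + D.τ β + 2 * algebraMap ℚ K n)
    (by rw [map_add, map_add, h, hst, map_mul, map_ofNat, AlgEquiv.commutes])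
    (by rw [map_add, map_add, htt, map_mul, map_ofNat, AlgEquiv.commutes]; ring)
  have hg : β + algebraMap ℚ K n ≠ 0 := fun h0 => hb (eq_neg_of_add_eq_zero_left h0)
  have hsq : (β + algebraMap ℚ K n) ^ 2 = β * algebraMap ℚ K t := by
    rw [ht]
    rw [map_pow] at hN
    linear_combination -hN
  have ht0 : t ≠ 0 := by
    rintro rfl
    rw [map_zero, mul_zero] at hsq
    exact pow_ne_zero 2 hg hsq
  have ht1 : algebraMap ℚ K t ≠ 0 := by
    intro h0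
    exact ht0 ((map_eq_zero _).1 h0)
  refine ⟨t⁻¹, β + algebraMap ℚ K n, inv_ne_zero ht0, hg, ?_, ?_⟩
  · rw [map_add, h, AlgEquiv.commutes]
  · rw [hsq, map_inv₀]
    field_simp

end field

end Pool.Agent.Helper50.BQ
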